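import Pool.Agent.NPC.Defs

/-!
# Red-blue cuts in directed graphs: definitions
-/

set_option autoImplicit false

namespace Pool.Agent.N581.RB

open Pool.Agent.NPC

/-- An instance `((V, (R, B)), (r, b))`: the list `V` of the vertices, the lists `R` and `B` of the
red and of the blue arcs (the arc `(u, v)` has tail `u` and head `v`), the bounds `r` and `b`. -/
abbrev Inst : Type := (List ℕ × (List (ℕ × ℕ) × List (ℕ × ℕ))) × (ℕ × ℕ)

/-- The vertices are listed once, and the arcs join vertices; loops and parallel arcs are allowed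
(an arc that is listed several times is a set of parallel arcs). -/
def IsDigraph (I : Inst) : Prop :=
  I.1.1.Nodup ∧ ∀ a ∈ I.1.2.1 ++ I.1.2.2, a.1 ∈ I.1.1 ∧ a.2 ∈ I.1.1

/-- There are no loops and no parallel arcs (neither of the same colour nor of different
colours). -/
def IsSimple (I : Inst) : Prop :=
  (I.1.2.1 ++ I.1.2.2).Nodup ∧ ∀ a ∈ I.1.2.1 ++ I.1.2.2, a.1 ≠ a.2

/-- The number of the arcs in the list `A` that are in the cut `δ⁺(X)`: the tail is in `X`, and the
head is not. -/
def leaving (X : Finset ℕ) (A : List (ℕ × ℕ)) : ℕ :=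
  A.countP (fun a => decide (a.1 ∈ X) && decide (a.2 ∉ X))

/-- There is a nonempty proper subset `X` of the set of the vertices such that `δ⁺(X)` contains at
most `r` red arcs and at most `b` blue arcs. -/
def HasCut (I : Inst) : Prop :=
  ∃ X : Finset ℕ, X.Nonempty ∧ X ⊂ I.1.1.toFinset ∧ leaving X I.1.2.1 ≤ I.2.1 ∧
    leaving X I.1.2.2 ≤ I.2.2

end Pool.Agent.N581.RB
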