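import Pool.Agent.N581.RB.Red

/-!
# Red-blue cuts in directed graphs: correctness of the reduction
-/

set_option autoImplicit false

namespace Pool.Agent.N581.RB

open Pool.Agent.NPC Pool.Agent.NPC.H634R2

variable {V : List ℕ} {E : List (ℕ × ℕ)} {k : ℕ}

theorem leaving_red (X : Finset ℕ) : leaving X (red V E k) = leaving X (R1 V E k) +
    (leaving X (R2 V E k) + (leaving X (R3 V) + leaving X (R4 E))) := by
  unfold red
  rw [leaving_append, leaving_append, leaving_append]

theorem leaving_R3 (X : Finset ℕ) (h : 1 ∉ X) :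
    leaving X (R3 V) = V.countP (fun v => decide (4 * v + 2 ∈ X)) := by
  unfold leaving R3
  rw [List.countP_map]
  apply List.countP_congr
  intro v _
  simp [h]

theorem leaving_blue (X : Finset ℕ) (h : 0 ∈ X) :
    leaving X (blue E) = (List.range E.length).countP (fun j => decide (4 * j + 3 ∉ X)) := by
  unfold leaving blue
  rw [List.countP_map]
  apply List.countP_congr
  intro v _
  simp [h]

theorem countP_range {α : Type} (l : List α) (p : α → Bool) (q : ℕ → Bool)
    (h : ∀ j x, l[j]? = some x → q j = p x) : (List.range l.length).countP q = l.countP p := by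
  induction l using List.reverseRecOn with
  | nil => rfl
  | append_singleton l a ih =>
    rw [List.length_append, List.length_singleton, List.range_succ, List.countP_append,
      List.countP_append, ih]
    · congr 1
      rw [List.countP_singleton, List.countP_singleton,
        h l.length a (by rw [List.getElem?_append_right le_rfl]; simp)]
    · intro j x hj
      have hj' := (List.getElem?_eq_some_iff.1 hj).1
      exact h j x (by rw [List.getElem?_append_left hj', hj])

/-- From a dense set of vertices to a cut. -/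
theorem hasCut_of (h : IsGraph V E) {c : ℕ} {U : Finset ℕ} (hUV : ∀ v ∈ U, v ∈ V)
    (hU : U.card ≤ k) (hin : c ≤ inside E U) :
    HasCut ((verts V E k, (red V E k, blue E)), (k, E.length - c)) := by
  classical
  let X : Finset ℕ := (verts V E k).toFinset.filter (fun x => x ∈ vS k ∨
    (∃ v ∈ U, x = 4 * v + 2) ∨ ∃ j e, E[j]? = some e ∧ e.1 ∈ U ∧ e.2 ∈ U ∧ x = 4 * j + 3)
  have hX : ∀ x, x ∈ X ↔ x ∈ verts V E k ∧ (x ∈ vS k ∨
    (∃ v ∈ U, x = 4 * v + 2) ∨ ∃ j e, E[j]? = some e ∧ e.1 ∈ U ∧ e.2 ∈ U ∧ x = 4 * j + 3) := by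
    intro x
    rw [Finset.mem_filter, List.mem_toFinset]
  have hS : ∀ x, x ∈ vS k → x ∈ X := fun x hx => (hX x).2 ⟨mem_verts.2 (Or.inl hx), Or.inl hx⟩
  have h0 : 0 ∈ X := hS 0 (mem_vS.2 ⟨0, by omega, rfl⟩)
  have hT : ∀ x, x ∈ vT k → x ∉ X := by
    intro x hx hx'
    obtain ⟨d, _, rfl⟩ := mem_vT.1 hx
    rcases ((hX _).1 hx').2 with h1 | ⟨v, _, h1⟩ | ⟨j, e, _, _, _, h1⟩
    · obtain ⟨d', _, h1⟩ := mem_vS.1 h1
      omega
    · omega
    · omega
  have h1 : 1 ∉ X := hT 1 (mem_vT.2 ⟨0, by omega, rfl⟩)
  have hV : ∀ v, 4 * v + 2 ∈ X ↔ v ∈ U := by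
    intro v
    rw [hX]
    constructor
    · rintro ⟨_, h1 | ⟨w, hw, h1⟩ | ⟨j, e, _, _, _, h1⟩⟩
      · obtain ⟨d', _, h1⟩ := mem_vS.1 h1
        omega
      · have : v = w := by omega
        rw [this]
        exact hw
      · omega
    · intro hv
      exact ⟨mem_verts.2 (Or.inr (Or.inr (Or.inl (mem_vV.2 ⟨v, hUV v hv, rfl⟩)))),
        Or.inr (Or.inl ⟨v, hv, rfl⟩)⟩
  have hE : ∀ j e, E[j]? = some e → (4 * j + 3 ∈ X ↔ e.1 ∈ U ∧ e.2 ∈ U) := by
    intro j e he
    rw [hX]
    constructor
    · rintro ⟨_, h1 | ⟨w, hw, h1⟩ | ⟨j', e', he', h2, h3, h1⟩⟩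
      · obtain ⟨d', _, h1⟩ := mem_vS.1 h1
        omega
      · omega
      · have : j = j' := by omega
        subst this
        rw [he] at he'
        cases he'
        exact ⟨h2, h3⟩
    · rintro ⟨h2, h3⟩
      exact ⟨mem_verts.2 (Or.inr (Or.inr (Or.inr (mem_vE.2
        ⟨j, (List.getElem?_eq_some_iff.1 he).1, rfl⟩)))), Or.inr (Or.inr ⟨j, e, he, h2, h3, rfl⟩)⟩
  refine ⟨X, ⟨0, h0⟩, ?_, ?_, ?_⟩
  · rw [Finset.ssubset_iff_subset_ne]
    refine ⟨Finset.filter_subset _ _, fun heq => h1 ?_⟩
    change 1 ∈ X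
    rw [heq]
    exact List.mem_toFinset.2 (mem_verts.2 (Or.inr (Or.inl (mem_vT.2 ⟨0, by omega, rfl⟩))))
  · change leaving X (red V E k) ≤ k
    rw [leaving_red]
    have e1 : leaving X (R1 V E k) = 0 :=
      leaving_eq_zero fun a ha _ => hS _ (mem_R1.1 ha).1.2
    have e2 : leaving X (R2 V E k) = 0 :=
      leaving_eq_zero fun a ha ha' => absurd ha' (hT _ (mem_R2.1 ha).1.1)
    have e4 : leaving X (R4 E) = 0 := by
      refine leaving_eq_zero fun a ha ha' => ?_
      obtain ⟨j, e, he, rfl | rfl⟩ := mem_R4.1 ha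
      · exact (hV _).2 ((hE j e he).1 ha').1
      · exact (hV _).2 ((hE j e he).1 ha').2
    rw [e1, e2, e4, leaving_R3 X h1]
    have e3 : V.countP (fun v => decide (4 * v + 2 ∈ X)) ≤ U.card := by
      rw [List.countP_eq_length_filter]
      rw [← List.toFinset_card_of_nodup (h.1.filter _)]
      apply Finset.card_le_card
      intro v hv
      rw [List.mem_toFinset, List.mem_filter] at hv
      exact (hV v).1 (by simpa using hv.2)
    omega
  · change leaving X (blue E) ≤ E.length - c
    rw [leaving_blue X h0]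
    have e5 : (List.range E.length).countP (fun j => decide (4 * j + 3 ∉ X)) =
        E.countP (fun e => !(decide (e.1 ∈ U) && decide (e.2 ∈ U))) := by
      apply countP_range
      intro j e he
      have := hE j e he
      by_cases h2 : e.1 ∈ U <;> by_cases h3 : e.2 ∈ U <;> simp [this, h2, h3]
    have e6 := List.length_eq_countP_add_countP
      (fun e : ℕ × ℕ => (decide (e.1 ∈ U) && decide (e.2 ∈ U))) (l := E)
    have e7 : E.countP (fun e => !(decide (e.1 ∈ U) && decide (e.2 ∈ U))) =
        E.countP (fun a => decide ¬(decide (a.1 ∈ U) && decide (a.2 ∈ U)) = true) := by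
      apply List.countP_congr
      intro e _
      simp
    rw [← e7] at e6
    rw [e5]
    unfold inside at hin
    omega

/-- From a cut to a dense set of vertices. -/
theorem of_hasCut (h : IsGraph V E) {c : ℕ} (hc : c ≤ E.length)
    (hcut : HasCut ((verts V E k, (red V E k, blue E)), (k, E.length - c))) :
    ∃ U : Finset ℕ, (∀ v ∈ U, v ∈ V) ∧ U.card ≤ k ∧ c ≤ inside E U := by
  classical
  obtain ⟨X, ⟨x, hx⟩, hXV, hR, hB⟩ := hcut
  change leaving X (red V E k) ≤ k at hR
  change leaving X (blue E) ≤ E.length - c at hB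
  have hXV' : ∀ y ∈ X, y ∈ verts V E k := fun y hy => List.mem_toFinset.1 (hXV.1 hy)
  rw [leaving_red] at hR
  -- the first cluster is inside
  have hS : ∀ s ∈ vS k, s ∈ X := by
    by_contra hcon
    push Not at hcon
    obtain ⟨s, hs, hsX⟩ := hcon
    have hcard : ((vS k).toFinset.filter (fun y => y ∈ X)).card +
        ((vS k).toFinset.filter (fun y => ¬ y ∈ X)).card = 2 * k + 2 := by
      rw [Finset.card_filter_add_card_filter_not, List.toFinset_card_of_nodup (nodup_vS k)]
      simp [vS]
    rcases Nat.lt_or_ge k ((vS k).toFinset.filter (fun y => y ∈ X)).card with h1 | h1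
    · have := card_le_leaving (X := X) (A := R1 V E k)
        (((vS k).toFinset.filter (fun y => y ∈ X)).image (fun y => (y, s))) (by
          intro a ha
          rw [Finset.mem_image] at ha
          obtain ⟨y, hy, rfl⟩ := ha
          rw [Finset.mem_filter, List.mem_toFinset] at hy
          exact ⟨mem_R1.2 ⟨⟨mem_verts.2 (Or.inl hy.1), hs⟩, fun h => hsX (by
            simp only at h; rw [← h]; exact hy.2)⟩, hy.2, hsX⟩)
      rw [Finset.card_image_of_injective _ (fun a b h => by simpa using h)] at this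
      omega
    · have := card_le_leaving (X := X) (A := R1 V E k)
        (((vS k).toFinset.filter (fun y => ¬ y ∈ X)).image (fun y => (x, y))) (by
          intro a ha
          rw [Finset.mem_image] at ha
          obtain ⟨y, hy, rfl⟩ := ha
          rw [Finset.mem_filter, List.mem_toFinset] at hy
          exact ⟨mem_R1.2 ⟨⟨hXV' x hx, hy.1⟩, fun h => hy.2 (by
            simp only at h; rw [← h]; exact hx)⟩, hx, hy.2⟩)
      rw [Finset.card_image_of_injective _ (fun a b h => by simpa using h)] at this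
      omega
  -- the second cluster is outside
  have hT : ∀ s ∈ vT k, s ∉ X := by
    intro s hs hsX
    obtain ⟨y, hy, hyX⟩ := Finset.exists_of_ssubset hXV
    rw [List.mem_toFinset, mem_verts] at hy
    have hy' : y ∈ vT k ∨ y ∈ vV V ∨ y ∈ vE E := by
      rcases hy with hy | hy
      · exact absurd (hS y hy) hyX
      · exact hy
    have hcard : ((vT k).toFinset.filter (fun y => y ∈ X)).card +
        ((vT k).toFinset.filter (fun y => ¬ y ∈ X)).card = 2 * k + 2 := by
      rw [Finset.card_filter_add_card_filter_not, List.toFinset_card_of_nodup (nodup_vT k)]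
      simp [vT]
    rcases Nat.lt_or_ge k ((vT k).toFinset.filter (fun y => y ∈ X)).card with h1 | h1
    · have := card_le_leaving (X := X) (A := R2 V E k)
        (((vT k).toFinset.filter (fun y => y ∈ X)).image (fun z => (z, y))) (by
          intro a ha
          rw [Finset.mem_image] at ha
          obtain ⟨z, hz, rfl⟩ := ha
          rw [Finset.mem_filter, List.mem_toFinset] at hz
          exact ⟨mem_R2.2 ⟨⟨hz.1, hy'⟩, fun h => hyX (by
            simp only at h; rw [← h]; exact hz.2)⟩, hz.2, hyX⟩)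
      rw [Finset.card_image_of_injective _ (fun a b h => by simpa using h)] at this
      omega
    · have := card_le_leaving (X := X) (A := R2 V E k)
        (((vT k).toFinset.filter (fun y => ¬ y ∈ X)).image (fun y => (s, y))) (by
          intro a ha
          rw [Finset.mem_image] at ha
          obtain ⟨z, hz, rfl⟩ := ha
          rw [Finset.mem_filter, List.mem_toFinset] at hz
          exact ⟨mem_R2.2 ⟨⟨hs, Or.inl hz.1⟩, fun h => hz.2 (by
            simp only at h; rw [← h]; exact hsX)⟩, hsX, hz.2⟩)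
      rw [Finset.card_image_of_injective _ (fun a b h => by simpa using h)] at this
      omega
  have h0 : 0 ∈ X := hS 0 (mem_vS.2 ⟨0, by omega, rfl⟩)
  have h1 : 1 ∉ X := hT 1 (mem_vT.2 ⟨0, by omega, rfl⟩)
  -- the vertices
  let U1 : Finset ℕ := V.toFinset.filter (fun v => 4 * v + 2 ∈ X)
  let U2 : Finset ℕ := V.toFinset.filter (fun v => 4 * v + 2 ∉ X ∧ ∃ j e, E[j]? = some e ∧
    4 * j + 3 ∈ X ∧ (v = e.1 ∨ v = e.2))
  have hU1 : U1.card ≤ leaving X (R3 V) := by
    have := card_le_leaving (X := X) (A := R3 V) (U1.image (fun v => (4 * v + 2, 1))) (by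
      intro a ha
      rw [Finset.mem_image] at ha
      obtain ⟨v, hv, rfl⟩ := ha
      rw [Finset.mem_filter, List.mem_toFinset] at hv
      exact ⟨mem_R3.2 ⟨v, hv.1, rfl⟩, hv.2, h1⟩)
    rwa [Finset.card_image_of_injective _ (fun a b h => by simpa using h)] at this
  have hU2 : U2.card ≤ leaving X (R4 E) := by
    have hch : ∀ v : ℕ, ∃ j : ℕ, v ∈ U2 → ∃ e, E[j]? = some e ∧ 4 * j + 3 ∈ X ∧
        (v = e.1 ∨ v = e.2) := by
      intro v
      by_cases hv : v ∈ U2
      · obtain ⟨j, e, he⟩ := (Finset.mem_filter.1 hv).2.2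
        exact ⟨j, fun _ => ⟨e, he⟩⟩
      · exact ⟨0, fun h => absurd h hv⟩
    choose j hj using hch
    have := card_le_leaving (X := X) (A := R4 E) (U2.image (fun v => (4 * j v + 3, 4 * v + 2))) (by
      intro a ha
      rw [Finset.mem_image] at ha
      obtain ⟨v, hv, rfl⟩ := ha
      obtain ⟨e, he, hjX, hve⟩ := hj v hv
      refine ⟨mem_R4.2 ⟨j v, e, he, ?_⟩, hjX, (Finset.mem_filter.1 hv).2.1⟩
      rcases hve with rfl | rfl
      · exact Or.inl rfl
      · exact Or.inr rfl)
    rwa [Finset.card_image_of_injective _ (fun a b h => by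
      simp only [Prod.mk.injEq] at h; omega)] at this
  refine ⟨U1 ∪ U2, ?_, ?_, ?_⟩
  · intro v hv
    rcases Finset.mem_union.1 hv with hv | hv
    · exact List.mem_toFinset.1 (Finset.mem_filter.1 hv).1
    · exact List.mem_toFinset.1 (Finset.mem_filter.1 hv).1
  · have := Finset.card_union_le U1 U2
    omega
  · rw [leaving_blue X h0] at hB
    have e5 : (List.range E.length).countP (fun j => decide (4 * j + 3 ∈ X)) ≤
        inside E (U1 ∪ U2) := by
      unfold inside
      rw [← countP_range E (fun e => decide (e.1 ∈ U1 ∪ U2) && decide (e.2 ∈ U1 ∪ U2))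
        (fun j => (E[j]?).elim false (fun e => decide (e.1 ∈ U1 ∪ U2) && decide (e.2 ∈ U1 ∪ U2)))
        (fun j e he => by rw [he]; rfl)]
      apply List.countP_mono_left
      intro j hj hjX
      rw [List.mem_range] at hj
      rw [decide_eq_true_eq] at hjX
      have he : E[j]? = some E[j] := List.getElem?_eq_getElem hj
      have he' := h.2.1 E[j] (List.getElem_mem hj)
      have key : ∀ v ∈ V, (v = E[j].1 ∨ v = E[j].2) → v ∈ U1 ∪ U2 := by
        intro v hv hve
        by_cases hvX : 4 * v + 2 ∈ X
        · exact Finset.mem_union_left _ (Finset.mem_filter.2 ⟨List.mem_toFinset.2 hv, hvX⟩)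
        · exact Finset.mem_union_right _ (Finset.mem_filter.2 ⟨List.mem_toFinset.2 hv, hvX,
            j, E[j], he, hjX, hve⟩)
      rw [he]
      simp only [Option.elim_some, Bool.and_eq_true, decide_eq_true_eq]
      exact ⟨key _ he'.1 (Or.inl rfl), key _ he'.2.1 (Or.inr rfl)⟩
    have e6 := List.length_eq_countP_add_countP (fun j => decide (4 * j + 3 ∈ X))
      (l := List.range E.length)
    have e7 : (List.range E.length).countP (fun j => decide (4 * j + 3 ∉ X)) =
        (List.range E.length).countP (fun a => decide ¬(decide (4 * a + 3 ∈ X)) = true) := by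
      apply List.countP_congr
      intro e _
      simp
    rw [← e7, List.length_range] at e6
    omega

end Pool.Agent.N581.RB
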