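import Pool.Agent.N581.RB.Main
import Pool.Agent.Y592.OP.NPMem
import Pool.Agent.H622R2.CoNP

/-!
# Red-blue cuts in directed graphs: polynomial time, and membership in `NP`
-/

set_option autoImplicit false

namespace Pool.Agent.N581.RB

open Pool.Agent.NPC Pool.Agent.NPC.H634R2 Pool.Agent.Y592.OP

variable {α : Type} [TEnc α]

theorem range_len {β : Type} [TEnc β] {l : α → List β} (hl : NPC.Poly l) :
    NPC.Poly (fun a => List.range (l a).length) := (UPoly.length hl).range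

theorem poly_verts {V : α → List ℕ} {E : α → List (ℕ × ℕ)} {k : α → ℕ} (hV : NPC.Poly V)
    (hE : NPC.Poly E) (hk : UPoly k) : NPC.Poly (vS ∘ k) ∧ NPC.Poly (vT ∘ k) ∧
      NPC.Poly (fun a => vV (V a)) ∧ NPC.Poly (fun a => vE (E a)) := by
  have h1 : NPC.Poly (fun a => List.range (2 * k a + 2)) :=
    (UPoly.add (UPoly.mul (UPoly.const 2) hk) (UPoly.const 2)).range
  refine ⟨?_, ?_, ?_, ?_⟩
  · exact NPC.Poly.map (F := fun _ c => 4 * c) h1 (by fun_prop)
  · exact NPC.Poly.map (F := fun _ c => 4 * c + 1) h1 (by fun_prop)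
  · exact NPC.Poly.map (F := fun _ v => 4 * v + 2) hV (by fun_prop)
  · exact NPC.Poly.map (F := fun _ j => 4 * j + 3) (range_len hE) (by fun_prop)

/-- the number of red arcs may be assumed to be small -/
def capped (I : (List ℕ × List (ℕ × ℕ)) × ℕ) : (List ℕ × List (ℕ × ℕ)) × ℕ :=
  (I.1, min I.2 (I.1.1.length + 2))

theorem clique_capped (I : (List ℕ × List (ℕ × ℕ)) × ℕ) :
    HasClique I.1.1 I.1.2 I.2 ↔ HasClique I.1.1 I.1.2 (capped I).2 := by
  have key : ∀ m, I.1.1.length < m → ¬ HasClique I.1.1 I.1.2 m := by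
    rintro m hm ⟨K, hK, hc, _⟩
    have : K.card ≤ I.1.1.toFinset.card := Finset.card_le_card fun v hv =>
      List.mem_toFinset.2 (hK v hv)
    have h2 := List.toFinset_card_le I.1.1
    omega
  rcases Nat.lt_or_ge I.1.1.length I.2 with h1 | h1
  · have h2 : I.1.1.length < (capped I).2 := by
      change I.1.1.length < min I.2 (I.1.1.length + 2)
      omega
    exact ⟨fun h => absurd h (key _ h1), fun h => absurd h (key _ h2)⟩
  · have h2 : (capped I).2 = I.2 := min_eq_left (by omega)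
    rw [h2]

theorem poly_capped : NPC.Poly capped := by
  unfold capped
  fun_prop

theorem upoly_capped : UPoly (fun I : (List ℕ × List (ℕ × ℕ)) × ℕ => (capped I).2) :=
  UPoly.of_le (NPC.Poly.snd poly_capped)
    (UPoly.add (UPoly.length (l := fun I : (List ℕ × List (ℕ × ℕ)) × ℕ => I.1.1) (by fun_prop))
      (UPoly.const 2)) (fun _ => min_le_right _ _)

theorem poly_inst : NPC.Poly (fun I => inst (capped I)) := by
  have hV : NPC.Poly (fun I : (List ℕ × List (ℕ × ℕ)) × ℕ => I.1.1) := by fun_prop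
  have hE : NPC.Poly (fun I : (List ℕ × List (ℕ × ℕ)) × ℕ => I.1.2) := by fun_prop
  have hk : NPC.Poly (fun I : (List ℕ × List (ℕ × ℕ)) × ℕ => (capped I).2) :=
    NPC.Poly.snd poly_capped
  obtain ⟨pS, pT, pV, pE⟩ := poly_verts hV hE upoly_capped
  have pS' : NPC.Poly (fun I : (List ℕ × List (ℕ × ℕ)) × ℕ => vS (capped I).2) := pS
  have pT' : NPC.Poly (fun I : (List ℕ × List (ℕ × ℕ)) × ℕ => vT (capped I).2) := pT
  have ptail : NPC.Poly (fun I : (List ℕ × List (ℕ × ℕ)) × ℕ =>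
      vT (capped I).2 ++ (vV I.1.1 ++ vE I.1.2)) := pT'.append (pV.append pE)
  have pverts : NPC.Poly (fun I : (List ℕ × List (ℕ × ℕ)) × ℕ =>
      verts I.1.1 I.1.2 (capped I).2) := pS'.append ptail
  have p1 : NPC.Poly (fun I : (List ℕ × List (ℕ × ℕ)) × ℕ => R1 I.1.1 I.1.2 (capped I).2) :=
    NPC.Poly.filter (p := fun _ (a : ℕ × ℕ) => decide (a.1 ≠ a.2)) (R671.poly_product pverts pS')
      (by fun_prop)
  have p2 : NPC.Poly (fun I : (List ℕ × List (ℕ × ℕ)) × ℕ => R2 I.1.1 I.1.2 (capped I).2) :=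
    NPC.Poly.filter (p := fun _ (a : ℕ × ℕ) => decide (a.1 ≠ a.2)) (R671.poly_product pT' ptail)
      (by fun_prop)
  have p3 : NPC.Poly (fun I : (List ℕ × List (ℕ × ℕ)) × ℕ => R3 I.1.1) :=
    NPC.Poly.map (F := fun _ v => (4 * v + 2, 1)) hV (by fun_prop)
  have p4 : NPC.Poly (fun I : (List ℕ × List (ℕ × ℕ)) × ℕ => R4 I.1.2) :=
    NPC.Poly.flatMap (F := fun _ (p : (ℕ × ℕ) × ℕ) =>
      [(4 * p.2 + 3, 4 * p.1.1 + 2), (4 * p.2 + 3, 4 * p.1.2 + 2)]) (NPC.Poly.zipIdx hE)
      (by fun_prop)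
  have pb : NPC.Poly (fun I : (List ℕ × List (ℕ × ℕ)) × ℕ => blue I.1.2) :=
    NPC.Poly.map (F := fun _ j => (0, 4 * j + 3)) (range_len hE) (by fun_prop)
  have pr : NPC.Poly (fun I : (List ℕ × List (ℕ × ℕ)) × ℕ => red I.1.1 I.1.2 (capped I).2) :=
    p1.append (p2.append (p3.append p4))
  unfold inst
  refine NPC.Poly.ite ?_ ?_ ?_
  · exact NPC.Poly.decide_le (NPC.Poly.div (NPC.Poly.mul hk (NPC.Poly.sub hk (NPC.Poly.const 1)))
      (NPC.Poly.const 2)) (NPC.Poly.length hE)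
  · exact NPC.Poly.pair (NPC.Poly.pair pverts (NPC.Poly.pair pr pb)) (NPC.Poly.pair hk
      (NPC.Poly.sub (NPC.Poly.length hE) (NPC.Poly.div (NPC.Poly.mul hk
        (NPC.Poly.sub hk (NPC.Poly.const 1))) (NPC.Poly.const 2))))
  · exact NPC.Poly.const _

/-- The instances of the reduction. -/
theorem inst_spec {I : (List ℕ × List (ℕ × ℕ)) × ℕ} (h : IsGraph I.1.1 I.1.2) :
    IsDigraph (inst I) ∧ IsSimple (inst I) := by
  unfold inst
  split_ifs with hc
  · exact ⟨⟨nodup_verts h.1 _ _, isDigraph_inst h _⟩, nodup_all h _, loopless_inst _⟩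
  · exact ⟨⟨List.nodup_nil, by simp⟩, by simp [IsSimple]⟩

theorem inst_correct {I : (List ℕ × List (ℕ × ℕ)) × ℕ} (h : IsGraph I.1.1 I.1.2) (h2 : 2 ≤ I.2) :
    CLIQUE I ↔ HasCut (inst I) := by
  have e : I.2.choose 2 = I.2 * (I.2 - 1) / 2 := Nat.choose_two_right I.2
  unfold CLIQUE
  rw [hasClique_iff h h2, e]
  unfold inst
  split_ifs with hc
  · constructor
    · rintro ⟨_, U, hU, hk, hin⟩
      exact hasCut_of h hU hk hin
    · intro hcut
      exact ⟨h, of_hasCut h hc hcut⟩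
  · constructor
    · rintro ⟨_, U, hU, hk, hin⟩
      exact absurd (hin.trans List.countP_le_length) hc
    · rintro ⟨X, ⟨x, hx⟩, hX, _⟩
      exact absurd (hX.1 hx) (by simp)

theorem hardPr_cut : HardPr (fun I : Inst => IsDigraph I ∧ IsSimple I) HasCut := by
  refine hardPr_CLIQUE.trans (f := fun I => inst (capped I)) poly_inst ?_ ?_
  · intro I hI
    exact inst_spec (I := capped I) hI.1
  · intro I hI
    have h1 : CLIQUE I ↔ CLIQUE (capped I) :=
      ⟨fun h => ⟨h.1, (clique_capped I).1 h.2⟩, fun h => ⟨h.1, (clique_capped I).2 h.2⟩⟩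
    rw [h1]
    refine inst_correct (I := capped I) hI.1 ?_
    change 2 ≤ min I.2 (I.1.1.length + 2)
    have := hI.2
    omega

/-! ### Membership in `NP` -/

theorem pp_isDigraph : PP IsDigraph := by
  unfold IsDigraph
  refine PP.and (pp_nodup (by fun_prop)) ?_
  refine PP.ball (l := fun I : Inst => I.1.2.1 ++ I.1.2.2)
    (r := fun I a => a.1 ∈ I.1.1 ∧ a.2 ∈ I.1.1) (by fun_prop) ?_
  exact PP.and (PP.mem (by fun_prop) (by fun_prop)) (PP.mem (by fun_prop) (by fun_prop))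

theorem pp_isSimple : PP IsSimple := by
  unfold IsSimple
  refine PP.and (pp_nodup (by fun_prop)) ?_
  refine PP.ball (l := fun I : Inst => I.1.2.1 ++ I.1.2.2)
    (r := fun I a => a.1 ≠ a.2) (by fun_prop) ?_
  exact PP.ne (by fun_prop) (by fun_prop)

/-- the number of leaving arcs, for a set given by a list -/
def leavingL (w : List ℕ) (A : List (ℕ × ℕ)) : ℕ :=
  (A.filter (fun a => decide (a.1 ∈ w) && decide (a.2 ∉ w))).length

theorem leavingL_eq (w : List ℕ) (A : List (ℕ × ℕ)) : leavingL w A = leaving w.toFinset A := by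
  unfold leavingL leaving
  rw [List.countP_eq_length_filter]
  congr 1
  apply List.filter_congr
  intro a _
  simp

theorem poly_leavingL {w : α → List ℕ} {A : α → List (ℕ × ℕ)} (hw : NPC.Poly w)
    (hA : NPC.Poly A) : NPC.Poly (fun x => leavingL (w x) (A x)) := by
  unfold leavingL
  refine NPC.Poly.length (NPC.Poly.filter
    (p := fun x (a : ℕ × ℕ) => decide (a.1 ∈ w x) && decide (a.2 ∉ w x)) hA ?_)
  fun_prop

/-- The certificate is a list of vertices. -/
def Cert (x : Inst × List ℕ) : Prop :=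
  (∃ v ∈ x.2, v ∈ x.1.1.1) ∧ (∀ v ∈ x.2, v ∈ x.1.1.1) ∧ (∃ v ∈ x.1.1.1, v ∉ x.2) ∧
    leavingL x.2 x.1.1.2.1 ≤ x.1.2.1 ∧ leavingL x.2 x.1.1.2.2 ≤ x.1.2.2

theorem pp_cert : PP Cert := by
  unfold Cert
  refine PP.and ?_ (PP.and ?_ (PP.and ?_ (PP.and ?_ ?_)))
  · exact PP.bex (l := fun x : Inst × List ℕ => x.2) (r := fun x v => v ∈ x.1.1.1) (by fun_prop)
      (PP.mem (by fun_prop) (by fun_prop))
  · exact PP.ball (l := fun x : Inst × List ℕ => x.2) (r := fun x v => v ∈ x.1.1.1) (by fun_prop)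
      (PP.mem (by fun_prop) (by fun_prop))
  · exact PP.bex (l := fun x : Inst × List ℕ => x.1.1.1) (r := fun x v => v ∉ x.2) (by fun_prop)
      (PP.mem (by fun_prop) (by fun_prop)).not
  · exact PP.le (poly_leavingL (by fun_prop) (by fun_prop)) (by fun_prop)
  · exact PP.le (poly_leavingL (by fun_prop) (by fun_prop)) (by fun_prop)

theorem cert_iff (I : Inst) : HasCut I ↔ ∃ w : List ℕ, sz w ≤ (sz I) * sz I + 1 ∧ Cert (I, w) := by
  classical
  constructor
  · rintro ⟨X, ⟨x, hx⟩, hX, h1, h2⟩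
    have hmem : ∀ v, v ∈ X.toList ↔ v ∈ X := fun v => Finset.mem_toList
    have hV : ∀ v ∈ X, v ∈ I.1.1 := fun v hv => List.mem_toFinset.1 (hX.1 hv)
    have e : X.toList.toFinset = X := Finset.toList_toFinset X
    refine ⟨X.toList, ?_, ⟨x, (hmem x).2 hx, hV x hx⟩, fun v hv => hV v ((hmem v).1 hv), ?_, ?_, ?_⟩
    · have e1 : X.toList.length ≤ sz I := by
        rw [Finset.length_toList]
        have e2 := Finset.card_le_card hX.1
        have e3 := List.toFinset_card_le I.1.1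
        have e4 := length_lt_sz I.1.1
        have e5 : sz I.1.1 ≤ sz I := by
          obtain ⟨⟨V, A⟩, B⟩ := I
          simp only [sz_pair]
          omega
        omega
      have e2 : sz X.toList ≤ X.toList.length * sz I + 1 := by
        have h3 : sz X.toList ≤ X.toList.length * ((sz I - 1) + 1) + 1 := by
          refine sz_le_length_mul _ _ ?_
          intro v hv
          have e6 := sz_le_of_mem (hV v ((hmem v).1 hv))
          have e5 : sz I.1.1 ≤ sz I := by
            obtain ⟨⟨V, A⟩, B⟩ := I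
            simp only [sz_pair]
            omega
          omega
        have h4 : (sz I - 1) + 1 = sz I := Nat.sub_add_cancel (sz_pos I)
        rwa [h4] at h3
      exact e2.trans (Nat.add_le_add_right (Nat.mul_le_mul_right _ e1) 1)
    · obtain ⟨y, hy, hyX⟩ := Finset.exists_of_ssubset hX
      exact ⟨y, List.mem_toFinset.1 hy, fun h => hyX ((hmem y).1 h)⟩
    · change leavingL X.toList _ ≤ _
      rw [leavingL_eq, e]
      exact h1
    · change leavingL X.toList _ ≤ _
      rw [leavingL_eq, e]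
      exact h2
  · rintro ⟨w, _, ⟨x, hx, _⟩, h1, ⟨y, hy, hyw⟩, h2, h3⟩
    change leavingL w _ ≤ _ at h2
    change leavingL w _ ≤ _ at h3
    rw [leavingL_eq] at h2 h3
    refine ⟨w.toFinset, ⟨x, List.mem_toFinset.2 hx⟩, ?_, h2, h3⟩
    rw [Finset.ssubset_iff_subset_ne]
    refine ⟨fun v hv => List.mem_toFinset.2 (h1 v (List.mem_toFinset.1 hv)), fun heq => hyw ?_⟩
    have : y ∈ w.toFinset := by
      rw [heq]
      exact List.mem_toFinset.2 hy
    exact List.mem_toFinset.1 this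

theorem inNPP_of_class {C : Inst → Prop} (hC : PP C) : InNPP (fun I => C I ∧ HasCut I) := by
  obtain ⟨b, hb, hb'⟩ := (hC.comp (γ := Inst) (f := fun x : Inst × List ℕ => x.1)
    (by fun_prop)).and pp_cert
  refine inNPP_of hb (Polynomial.X * Polynomial.X + 1) (fun I => ?_)
  simp only [Polynomial.eval_add, Polynomial.eval_mul, Polynomial.eval_X, Polynomial.eval_one]
  rw [cert_iff]
  constructor
  · rintro ⟨h1, w, h2, h3⟩
    exact ⟨w, h2, (hb' _).2 ⟨h1, h3⟩⟩
  · rintro ⟨w, h2, h3⟩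
    obtain ⟨h1, h4⟩ := (hb' _).1 h3
    exact ⟨h1, w, h2, h4⟩

theorem npHard_of_class {C : Inst → Prop} (hC : ∀ I, IsDigraph I → IsSimple I → C I) :
    HardI (fun I => C I ∧ HasCut I) := by
  intro L hL
  obtain ⟨f, hf, h1, h2⟩ := hardPr_cut L hL
  exact ⟨f, hf, fun x => ⟨fun h => ⟨hC _ (h1 x).1 (h1 x).2, (h2 x).1 h⟩, fun h => (h2 x).2 h.2⟩⟩

end Pool.Agent.N581.RB
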