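import Pool.Agent.N581.RB.Defs
import Pool.Agent.H634R2.Clique
import Pool.Agent.H671R2.PolyAuto

/-!
# Red-blue cuts in directed graphs: the reduction from the clique problem
-/

set_option autoImplicit false

namespace Pool.Agent.N581.RB

open Pool.Agent.NPC Pool.Agent.NPC.H634R2

/-- vertices of the first cluster -/
def vS (k : ℕ) : List ℕ := (List.range (2 * k + 2)).map (fun c => 4 * c)

/-- vertices of the second cluster -/
def vT (k : ℕ) : List ℕ := (List.range (2 * k + 2)).map (fun c => 4 * c + 1)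

/-- vertices for the vertices of the graph -/
def vV (V : List ℕ) : List ℕ := V.map (fun v => 4 * v + 2)

/-- vertices for the edges of the graph -/
def vE (E : List (ℕ × ℕ)) : List ℕ := (List.range E.length).map (fun j => 4 * j + 3)

/-- all vertices -/
def verts (V : List ℕ) (E : List (ℕ × ℕ)) (k : ℕ) : List ℕ := vS k ++ (vT k ++ (vV V ++ vE E))

/-- all arcs into the first cluster -/
def R1 (V : List ℕ) (E : List (ℕ × ℕ)) (k : ℕ) : List (ℕ × ℕ) :=
  ((verts V E k) ×ˢ (vS k)).filter (fun a => decide (a.1 ≠ a.2))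

/-- all arcs from the second cluster which do not go to the first one -/
def R2 (V : List ℕ) (E : List (ℕ × ℕ)) (k : ℕ) : List (ℕ × ℕ) :=
  ((vT k) ×ˢ (vT k ++ (vV V ++ vE E))).filter (fun a => decide (a.1 ≠ a.2))

/-- the arcs from the vertices of the graph to the second cluster -/
def R3 (V : List ℕ) : List (ℕ × ℕ) := V.map (fun v => (4 * v + 2, 1))

/-- the arcs from the edges to their ends -/
def R4 (E : List (ℕ × ℕ)) : List (ℕ × ℕ) :=
  E.zipIdx.flatMap (fun p => [(4 * p.2 + 3, 4 * p.1.1 + 2), (4 * p.2 + 3, 4 * p.1.2 + 2)])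

/-- red arcs -/
def red (V : List ℕ) (E : List (ℕ × ℕ)) (k : ℕ) : List (ℕ × ℕ) :=
  R1 V E k ++ (R2 V E k ++ (R3 V ++ R4 E))

/-- blue arcs -/
def blue (E : List (ℕ × ℕ)) : List (ℕ × ℕ) :=
  (List.range E.length).map (fun j => (0, 4 * j + 3))

/-- the instance -/
def inst (I : (List ℕ × List (ℕ × ℕ)) × ℕ) : Inst :=
  if I.2 * (I.2 - 1) / 2 ≤ I.1.2.length then
    ((verts I.1.1 I.1.2 I.2, (red I.1.1 I.1.2 I.2, blue I.1.2)),
      (I.2, I.1.2.length - I.2 * (I.2 - 1) / 2))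
  else (([], ([], [])), (0, 0))

theorem mem_vS {k x : ℕ} : x ∈ vS k ↔ ∃ c, c < 2 * k + 2 ∧ 4 * c = x := by
  simp [vS]

theorem mem_vT {k x : ℕ} : x ∈ vT k ↔ ∃ c, c < 2 * k + 2 ∧ 4 * c + 1 = x := by
  simp [vT]

theorem mem_vV {V : List ℕ} {x : ℕ} : x ∈ vV V ↔ ∃ v ∈ V, 4 * v + 2 = x := by
  simp [vV]

theorem mem_vE {E : List (ℕ × ℕ)} {x : ℕ} : x ∈ vE E ↔ ∃ j, j < E.length ∧ 4 * j + 3 = x := by
  simp [vE]

theorem mem_verts {V : List ℕ} {E : List (ℕ × ℕ)} {k x : ℕ} :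
    x ∈ verts V E k ↔ x ∈ vS k ∨ x ∈ vT k ∨ x ∈ vV V ∨ x ∈ vE E := by
  simp [verts]

theorem mem_R1 {V : List ℕ} {E : List (ℕ × ℕ)} {k : ℕ} {a : ℕ × ℕ} :
    a ∈ R1 V E k ↔ (a.1 ∈ verts V E k ∧ a.2 ∈ vS k) ∧ a.1 ≠ a.2 := by
  unfold R1
  rw [List.mem_filter, List.mem_product]
  simp

theorem mem_R2 {V : List ℕ} {E : List (ℕ × ℕ)} {k : ℕ} {a : ℕ × ℕ} :
    a ∈ R2 V E k ↔ (a.1 ∈ vT k ∧ (a.2 ∈ vT k ∨ a.2 ∈ vV V ∨ a.2 ∈ vE E)) ∧ a.1 ≠ a.2 := by
  unfold R2
  rw [List.mem_filter, List.mem_product]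
  simp

theorem mem_R3 {V : List ℕ} {a : ℕ × ℕ} : a ∈ R3 V ↔ ∃ v ∈ V, (4 * v + 2, 1) = a := by
  simp [R3]

theorem mem_R4 {E : List (ℕ × ℕ)} {a : ℕ × ℕ} : a ∈ R4 E ↔ ∃ j e, E[j]? = some e ∧
    (a = (4 * j + 3, 4 * e.1 + 2) ∨ a = (4 * j + 3, 4 * e.2 + 2)) := by
  unfold R4
  rw [List.mem_flatMap]
  constructor
  · rintro ⟨⟨e, j⟩, h, h'⟩
    rw [List.mem_zipIdx_iff_getElem?] at h
    simp only [List.mem_cons, List.not_mem_nil, or_false] at h'
    exact ⟨j, e, h, h'⟩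
  · rintro ⟨j, e, h, h'⟩
    exact ⟨(e, j), List.mem_zipIdx_iff_getElem?.2 h, by simpa using h'⟩

theorem mem_blue {E : List (ℕ × ℕ)} {a : ℕ × ℕ} : a ∈ blue E ↔ ∃ j, j < E.length ∧
    (0, 4 * j + 3) = a := by
  simp [blue]

theorem nodup_vS (k : ℕ) : (vS k).Nodup :=
  List.nodup_range.map (fun a b h => by simpa using h)

theorem nodup_vT (k : ℕ) : (vT k).Nodup :=
  List.nodup_range.map (fun a b h => by simpa using h)

theorem nodup_vV {V : List ℕ} (h : V.Nodup) : (vV V).Nodup :=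
  h.map (fun a b h => by simpa using h)

theorem nodup_vE (E : List (ℕ × ℕ)) : (vE E).Nodup :=
  List.nodup_range.map (fun a b h => by simpa using h)

theorem nodup_tail {V : List ℕ} (h : V.Nodup) (E : List (ℕ × ℕ)) (k : ℕ) :
    (vT k ++ (vV V ++ vE E)).Nodup := by
  rw [List.nodup_append, List.nodup_append]
  refine ⟨nodup_vT k, ⟨nodup_vV h, nodup_vE E, ?_⟩, ?_⟩
  · intro a ha b hb hab
    rw [mem_vV] at ha
    rw [mem_vE] at hb
    obtain ⟨c, _, hc⟩ := ha
    obtain ⟨d, _, hd⟩ := hb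
    omega
  · intro a ha b hb hab
    rw [List.mem_append, mem_vV, mem_vE] at hb
    rw [mem_vT] at ha
    obtain ⟨c, _, hc⟩ := ha
    rcases hb with ⟨d, _, hd⟩ | ⟨d, _, hd⟩ <;> omega

theorem nodup_verts {V : List ℕ} (h : V.Nodup) (E : List (ℕ × ℕ)) (k : ℕ) :
    (verts V E k).Nodup := by
  unfold verts
  rw [List.nodup_append]
  refine ⟨nodup_vS k, nodup_tail h E k, ?_⟩
  intro a ha b hb hab
  rw [List.mem_append, List.mem_append, mem_vT, mem_vV, mem_vE] at hb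
  rw [mem_vS] at ha
  obtain ⟨c, _, hc⟩ := ha
  rcases hb with ⟨d, _, hd⟩ | ⟨d, _, hd⟩ | ⟨d, _, hd⟩ <;> omega

theorem nodup_R4 {V : List ℕ} {E : List (ℕ × ℕ)} (h : IsGraph V E) : (R4 E).Nodup := by
  unfold R4
  rw [List.nodup_flatMap]
  constructor
  · rintro ⟨e, j⟩ he
    rw [List.mem_zipIdx_iff_getElem?] at he
    have := (h.2.1 e (List.mem_of_getElem? he)).2.2
    simp only [List.nodup_cons, List.mem_singleton, Prod.mk.injEq, true_and, List.not_mem_nil,
      not_false_eq_true, List.nodup_nil, and_true]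
    omega
  · have h1 : (E.zipIdx.map Prod.snd).Nodup := by
      have : E.zipIdx.map Prod.snd = List.range E.length := by
        apply List.ext_getElem
        · simp
        · intro i h1 h2
          simp
      rw [this]
      exact List.nodup_range
    rw [List.nodup_iff_pairwise_ne, List.pairwise_map] at h1
    refine h1.imp ?_
    intro a b hab x hx hx'
    simp only [List.mem_cons, List.not_mem_nil, or_false] at hx hx'
    apply hab
    rcases hx with rfl | rfl <;> rcases hx' with h | h <;> simp only [Prod.mk.injEq] at h <;> omega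

theorem nodup_all {V : List ℕ} {E : List (ℕ × ℕ)} (h : IsGraph V E) (k : ℕ) :
    (red V E k ++ blue E).Nodup := by
  unfold red
  rw [List.append_assoc, List.append_assoc, List.append_assoc]
  rw [List.nodup_append, List.nodup_append, List.nodup_append, List.nodup_append]
  refine ⟨((nodup_verts h.1 E k).product (nodup_vS k)).filter _,
    ⟨((nodup_vT k).product (nodup_tail h.1 E k)).filter _, ⟨?_, ⟨nodup_R4 h, ?_, ?_⟩, ?_⟩, ?_⟩, ?_⟩
  · exact h.1.map (fun a b h => by simpa using h)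
  · exact List.nodup_range.map (fun a b h => by simpa using h)
  · intro a ha b hb hab
    rw [mem_R4] at ha
    rw [mem_blue] at hb
    obtain ⟨j, e, _, h⟩ := ha
    obtain ⟨j', _, rfl⟩ := hb
    subst hab
    rcases h with h | h <;> simp only [Prod.mk.injEq] at h <;> omega
  · intro a ha b hb hab
    rw [mem_R3] at ha
    rw [List.mem_append, mem_R4, mem_blue] at hb
    subst hab
    obtain ⟨v, _, rfl⟩ := ha
    rcases hb with ⟨j, e, _, h⟩ | ⟨j, _, h⟩
    · rcases h with h | h <;> simp only [Prod.mk.injEq] at h <;> omega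
    · simp only [Prod.mk.injEq] at h
      omega
  · intro a ha b hb hab
    rw [mem_R2] at ha
    rw [List.mem_append, List.mem_append, mem_R3, mem_R4, mem_blue] at hb
    subst hab
    obtain ⟨⟨h1, _⟩, _⟩ := ha
    rw [mem_vT] at h1
    obtain ⟨c, _, hc⟩ := h1
    rcases hb with ⟨v, _, rfl⟩ | ⟨j, e, _, rfl | rfl⟩ | ⟨j, _, rfl⟩ <;> simp only at hc <;> omega
  · intro a ha b hb hab
    rw [mem_R1] at ha
    rw [List.mem_append, List.mem_append, List.mem_append, mem_R2, mem_R3, mem_R4, mem_blue] at hb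
    subst hab
    obtain ⟨⟨_, h1⟩, _⟩ := ha
    rw [mem_vS] at h1
    obtain ⟨c, _, hc⟩ := h1
    rcases hb with ⟨⟨_, h2⟩, _⟩ | ⟨v, _, rfl⟩ | ⟨j, e, _, rfl | rfl⟩ | ⟨j, _, rfl⟩
    · rw [mem_vT, mem_vV, mem_vE] at h2
      rcases h2 with ⟨d, _, hd⟩ | ⟨d, _, hd⟩ | ⟨d, _, hd⟩ <;> omega
    all_goals
      simp only at hc
      omega

theorem isDigraph_inst {V : List ℕ} {E : List (ℕ × ℕ)} (h : IsGraph V E) (k : ℕ) :
    ∀ a ∈ red V E k ++ blue E, a.1 ∈ verts V E k ∧ a.2 ∈ verts V E k := by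
  intro a ha
  unfold red at ha
  rw [List.mem_append, List.mem_append, List.mem_append, List.mem_append] at ha
  rcases ha with (ha | ha | ha | ha) | ha
  · rw [mem_R1] at ha
    exact ⟨ha.1.1, mem_verts.2 (Or.inl ha.1.2)⟩
  · rw [mem_R2] at ha
    exact ⟨mem_verts.2 (Or.inr (Or.inl ha.1.1)), mem_verts.2 (Or.inr ha.1.2)⟩
  · rw [mem_R3] at ha
    obtain ⟨v, hv, rfl⟩ := ha
    exact ⟨mem_verts.2 (Or.inr (Or.inr (Or.inl (mem_vV.2 ⟨v, hv, rfl⟩)))),
      mem_verts.2 (Or.inr (Or.inl (mem_vT.2 ⟨0, by omega, rfl⟩)))⟩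
  · rw [mem_R4] at ha
    obtain ⟨j, e, he, h'⟩ := ha
    have hj : j < E.length := (List.getElem?_eq_some_iff.1 he).1
    have he' := h.2.1 e (List.mem_of_getElem? he)
    have h1 : 4 * j + 3 ∈ verts V E k :=
      mem_verts.2 (Or.inr (Or.inr (Or.inr (mem_vE.2 ⟨j, hj, rfl⟩))))
    rcases h' with rfl | rfl
    · exact ⟨h1, mem_verts.2 (Or.inr (Or.inr (Or.inl (mem_vV.2 ⟨_, he'.1, rfl⟩))))⟩
    · exact ⟨h1, mem_verts.2 (Or.inr (Or.inr (Or.inl (mem_vV.2 ⟨_, he'.2.1, rfl⟩))))⟩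
  · rw [mem_blue] at ha
    obtain ⟨j, hj, rfl⟩ := ha
    exact ⟨mem_verts.2 (Or.inl (mem_vS.2 ⟨0, by omega, rfl⟩)),
      mem_verts.2 (Or.inr (Or.inr (Or.inr (mem_vE.2 ⟨j, hj, rfl⟩))))⟩

theorem loopless_inst {V : List ℕ} {E : List (ℕ × ℕ)} (k : ℕ) :
    ∀ a ∈ red V E k ++ blue E, a.1 ≠ a.2 := by
  intro a ha
  unfold red at ha
  rw [List.mem_append, List.mem_append, List.mem_append, List.mem_append] at ha
  rcases ha with (ha | ha | ha | ha) | ha
  · exact (mem_R1.1 ha).2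
  · exact (mem_R2.1 ha).2
  · obtain ⟨v, hv, rfl⟩ := mem_R3.1 ha
    simp only
    omega
  · obtain ⟨j, e, he, rfl | rfl⟩ := mem_R4.1 ha <;> simp only <;> omega
  · obtain ⟨j, hj, rfl⟩ := mem_blue.1 ha
    simp only
    omega

/-! ### Counting -/

theorem leaving_append (X : Finset ℕ) (A B : List (ℕ × ℕ)) :
    leaving X (A ++ B) = leaving X A + leaving X B := List.countP_append

theorem leaving_eq_zero {X : Finset ℕ} {A : List (ℕ × ℕ)}
    (h : ∀ a ∈ A, a.1 ∈ X → a.2 ∈ X) : leaving X A = 0 := by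
  unfold leaving
  rw [List.countP_eq_zero]
  intro a ha
  simp only [Bool.and_eq_true, decide_eq_true_eq, not_and, not_not]
  exact h a ha

/-- A set of leaving arcs gives a lower bound. -/
theorem card_le_leaving {X : Finset ℕ} {A : List (ℕ × ℕ)} (S : Finset (ℕ × ℕ))
    (h : ∀ a ∈ S, a ∈ A ∧ a.1 ∈ X ∧ a.2 ∉ X) : S.card ≤ leaving X A := by
  unfold leaving
  rw [List.countP_eq_length_filter]
  calc S.card ≤ (A.filter (fun a => decide (a.1 ∈ X) && decide (a.2 ∉ X))).toFinset.card := by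
        apply Finset.card_le_card
        intro a ha
        obtain ⟨h1, h2, h3⟩ := h a ha
        rw [List.mem_toFinset, List.mem_filter]
        exact ⟨h1, by simp [h2, h3]⟩
    _ ≤ _ := List.toFinset_card_le _

end Pool.Agent.N581.RB
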